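import Mathlib

/-!
The Cockayne–Mynhardt bound `γ_{ks}^{-11}(G) ≤ 2k - n` for `n/2 < k ≤ n` fails for connected
graphs: for every order `n ≡ 0 (mod 4)`, `n ≥ 8`, the crown graph (complete bipartite graph minus
a perfect matching) violates it for `k = n/2 + 1`, hence `p_𝒢(n) ≥ n/2 + 2`.
-/

namespace Pool.Agent.Results.MP_1fc697_co.CrownGraphs

open SimpleGraph Finset

/-- The sum of `f` over the closed neighbourhood of `v`. -/
def closedSum {V : Type} [Fintype V] (G : SimpleGraph V) [DecidableRel G.Adj]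
    (f : V → ℤ) (v : V) : ℤ := f v + ∑ u ∈ G.neighborFinset v, f u

/-- `f` is a signed `k`-subdominating function of `G`. -/
def IsSub {V : Type} [Fintype V] (G : SimpleGraph V) [DecidableRel G.Adj]
    (k : ℕ) (f : V → ℤ) : Prop :=
  (∀ v, f v = 1 ∨ f v = -1) ∧ k ≤ (univ.filter fun v => 1 ≤ closedSum G f v).card

/-- The signed `k`-subdomination number. -/
noncomputable def subdom {V : Type} [Fintype V] (G : SimpleGraph V) [DecidableRel G.Adj]
    (k : ℕ) : ℤ := sInf {w | ∃ f : V → ℤ, IsSub G k f ∧ ∑ v, f v = w}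

/-- The threshold for connected graphs of order `n`: the least `p` such that
`subdom G k ≤ 2k - n` for every connected `G` of order `n` and all `p ≤ k ≤ n`, `k ≥ 1`. -/
noncomputable def pG (n : ℕ) : ℕ :=
  sInf {p : ℕ | ∀ (V : Type) [Fintype V] (G : SimpleGraph V) [DecidableRel G.Adj],
    Fintype.card V = n → G.Connected → ∀ k : ℕ, 1 ≤ k → p ≤ k → k ≤ n →
      subdom G k ≤ 2 * (k : ℤ) - n}

/-- The crown graph on `Fin m × Bool`. -/
def crown (m : ℕ) : SimpleGraph (Fin m × Bool) where
  Adj u v := u.2 ≠ v.2 ∧ u.1 ≠ v.1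
  symm := ⟨fun _ _ h => ⟨h.1.symm, h.2.symm⟩⟩
  loopless := ⟨fun _ h => h.1 rfl⟩

instance (m : ℕ) : DecidableRel (crown m).Adj := fun u v =>
  inferInstanceAs (Decidable (u.2 ≠ v.2 ∧ u.1 ≠ v.1))

theorem crown_connected {m : ℕ} (hm : 3 ≤ m) : (crown m).Connected := by
  have hne : Nonempty (Fin m × Bool) := ⟨(⟨0, by omega⟩, true)⟩
  have third : ∀ i j : Fin m, ∃ k : Fin m, k ≠ i ∧ k ≠ j := by
    intro i j
    by_contra h
    push Not at h
    have : (univ : Finset (Fin m)) ⊆ {i, j} := by
      intro k _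
      by_cases hk : k = i
      · simp [hk]
      · simp [h k hk]
    have := Finset.card_le_card this
    have h2 : ({i, j} : Finset (Fin m)).card ≤ 2 := Finset.card_le_two
    simp at this
    omega
  have hstep : ∀ i j : Fin m, ∀ s : Bool, (crown m).Reachable (i, s) (j, s) := by
    intro i j s
    obtain ⟨k, hk1, hk2⟩ := third i j
    have h1 : (crown m).Adj (i, s) (k, !s) := ⟨by simp, by simpa using hk1.symm⟩
    have h2 : (crown m).Adj (k, !s) (j, s) := ⟨by simp, by simpa using hk2⟩
    exact h1.reachable.trans h2.reachable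
  refine { preconnected := ?_, nonempty := hne }
  rintro ⟨i, s⟩ ⟨j, t⟩
  by_cases hst : s = t
  · subst hst; exact hstep i j s
  · obtain ⟨k, hk1, hk2⟩ := third i j
    have h1 : (crown m).Adj (i, s) (k, t) := ⟨hst, by simpa using hk1.symm⟩
    exact h1.reachable.trans (hstep k j t)

theorem crown_sum {m : ℕ} (f : Fin m × Bool → ℤ) (i : Fin m) (s : Bool) :
    closedSum (crown m) f (i, s) = f (i, s) - f (i, !s) + ∑ j, f (j, !s) := by
  unfold closedSum
  have : (crown m).neighborFinset (i, s) = (univ.erase i).image (fun j => (j, !s)) := by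
    ext ⟨j, t⟩
    simp only [mem_neighborFinset, Finset.mem_image, Finset.mem_erase, Finset.mem_univ, and_true,
      Prod.mk.injEq]
    show (s ≠ t ∧ i ≠ j) ↔ _
    constructor
    · rintro ⟨h1, h2⟩
      refine ⟨j, h2.symm, rfl, ?_⟩
      cases s <;> cases t <;> simp_all
    · rintro ⟨k, h1, rfl, h2⟩
      refine ⟨?_, h1.symm⟩
      cases s <;> cases t <;> simp_all
  rw [this, Finset.sum_image (by intro a _ b _ h; simpa using h)]
  have := Finset.add_sum_erase univ (fun j => f (j, !s)) (Finset.mem_univ i)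
  linarith

/-- The number of covered vertices on the side `s`. -/
theorem side_count {m : ℕ} (a b : Fin m → ℤ) (ha : ∀ i, a i = 1 ∨ a i = -1)
    (hb : ∀ i, b i = 1 ∨ b i = -1) (X : ℤ) :
    (X ≤ -2 → (univ.filter fun i => 1 ≤ a i - b i + X).card = 0) ∧
    (X = 0 → (univ.filter fun i => 1 ≤ a i - b i + X).card =
      (univ.filter fun i => a i = 1 ∧ b i = -1).card) ∧
    (X = 2 → (univ.filter fun i => 1 ≤ a i - b i + X).card +
      (univ.filter fun i => b i = 1 ∧ a i = -1).card = m) := by
  refine ⟨fun h => ?_, fun h => ?_, fun h => ?_⟩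
  · rw [Finset.card_eq_zero, Finset.filter_eq_empty_iff]
    intro i _
    rcases ha i with h1 | h1 <;> rcases hb i with h2 | h2 <;> rw [h1, h2] <;> omega
  · congr 1
    apply Finset.filter_congr
    intro i _
    rcases ha i with h1 | h1 <;> rcases hb i with h2 | h2 <;> rw [h1, h2, h] <;> decide
  · have : (univ.filter fun i => b i = 1 ∧ a i = -1) =
        (univ.filter fun i => ¬ (1 ≤ a i - b i + X)) := by
      apply Finset.filter_congr
      intro i _
      rcases ha i with h1 | h1 <;> rcases hb i with h2 | h2 <;> rw [h1, h2, h] <;> decide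
    rw [this, Finset.card_filter_add_card_filter_not]
    simp

theorem sum_parity {m : ℕ} (hm : Even m) (a : Fin m → ℤ) (ha : ∀ i, a i = 1 ∨ a i = -1) :
    Even (∑ i, a i) := by
  have : ∑ i, a i = ∑ i : Fin m, (a i + 1) - m := by
    rw [Finset.sum_add_distrib]; simp
  rw [this]
  apply Even.sub
  · apply Finset.even_sum
    intro i _
    rcases ha i with h | h <;> rw [h] <;> decide
  · exact_mod_cast hm

/-- In a crown graph with even sides, a function of weight at most `2` covers at most half of the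
vertices. -/
theorem crown_cover {m : ℕ} (hm : Even m) (f : Fin m × Bool → ℤ)
    (hf : ∀ v, f v = 1 ∨ f v = -1) (hw : ∑ v, f v ≤ 2) :
    (univ.filter fun v => 1 ≤ closedSum (crown m) f v).card ≤ m := by
  set a : Fin m → ℤ := fun i => f (i, true) with ha
  set b : Fin m → ℤ := fun i => f (i, false) with hb
  have hsum : ∑ v, f v = ∑ i, a i + ∑ i, b i := by
    rw [Fintype.sum_prod_type_right]
    simp [ha, hb]
  have hcount : (univ.filter fun v => 1 ≤ closedSum (crown m) f v).card =
      (univ.filter fun i => 1 ≤ a i - b i + ∑ j, b j).card +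
      (univ.filter fun i => 1 ≤ b i - a i + ∑ j, a j).card := by
    rw [Finset.card_filter, Finset.card_filter, Finset.card_filter,
      Fintype.sum_prod_type_right]
    simp only [Fintype.sum_bool, crown_sum]
    simp [ha, hb]
  have ha' : ∀ i, a i = 1 ∨ a i = -1 := fun i => hf _
  have hb' : ∀ i, b i = 1 ∨ b i = -1 := fun i => hf _
  have hpa := sum_parity hm a ha'
  have hpb := sum_parity hm b hb'
  obtain ⟨A1, A2, A3⟩ := side_count a b ha' hb' (∑ j, b j)
  obtain ⟨B1, B2, B3⟩ := side_count b a hb' ha' (∑ j, a j)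
  have hc1 : (univ.filter fun i => 1 ≤ a i - b i + ∑ j, b j).card ≤ m := by
    simpa using Finset.card_le_univ (univ.filter fun i => 1 ≤ a i - b i + ∑ j, b j)
  have hc2 : (univ.filter fun i => 1 ≤ b i - a i + ∑ j, a j).card ≤ m := by
    simpa using Finset.card_le_univ (univ.filter fun i => 1 ≤ b i - a i + ∑ j, a j)
  have hdisj : (univ.filter fun i => a i = 1 ∧ b i = -1).card +
      (univ.filter fun i => b i = 1 ∧ a i = -1).card ≤ m := by
    rw [← Finset.card_union_of_disjoint]
    · simpa using Finset.card_le_univ ((univ.filter fun i => a i = 1 ∧ b i = -1) ∪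
        (univ.filter fun i => b i = 1 ∧ a i = -1))
    · rw [Finset.disjoint_filter]
      rintro i _ ⟨h1, _⟩ ⟨_, h2⟩
      rw [h1] at h2; omega
  rw [hcount]
  rw [hsum] at hw
  obtain ⟨x, hx⟩ := hpa
  obtain ⟨y, hy⟩ := hpb
  generalize (univ.filter fun i => 1 ≤ a i - b i + ∑ j, b j).card = p at *
  generalize (univ.filter fun i => 1 ≤ b i - a i + ∑ j, a j).card = q at *
  generalize (univ.filter fun i => a i = 1 ∧ b i = -1).card = r at *
  generalize (univ.filter fun i => b i = 1 ∧ a i = -1).card = t at *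
  generalize (∑ i, a i) = X at *
  generalize (∑ i, b i) = Y at *
  have e1 : Y ≤ -2 ∨ Y = 0 ∨ Y = 2 ∨ 4 ≤ Y := by omega
  have e2 : X ≤ -2 ∨ X = 0 ∨ X = 2 ∨ 4 ≤ X := by omega
  rcases e1 with h1 | h1 | h1 | h1 <;> rcases e2 with h2 | h2 | h2 | h2 <;>
    first
    | omega
    | (have := A1 h1; have := B1 h2; omega)
    | (have := A1 h1; omega)
    | (have := B1 h2; omega)
    | (have := A2 h1; have := B2 h2; omega)
    | (have := A2 h1; have := B3 h2; omega)
    | (have := A3 h1; have := B2 h2; omega)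

theorem bdd {V : Type} [Fintype V] (G : SimpleGraph V) [DecidableRel G.Adj] (k : ℕ) :
    BddBelow {w | ∃ f : V → ℤ, IsSub G k f ∧ ∑ v, f v = w} := by
  refine ⟨-(Fintype.card V : ℤ), ?_⟩
  rintro w ⟨f, ⟨hf, _⟩, rfl⟩
  have : ∑ v : V, (-1 : ℤ) ≤ ∑ v, f v := by
    apply Finset.sum_le_sum
    intro v _
    rcases hf v with h | h <;> rw [h] <;> omega
  simpa using this

theorem crown_subdom {m : ℕ} (hm : Even m) : 3 ≤ subdom (crown m) (m + 1) ∨ m = 0 := by
  by_cases h0 : m = 0
  · exact Or.inr h0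
  left
  unfold subdom
  apply le_csInf
  · refine ⟨_, fun _ => 1, ⟨fun _ => Or.inl rfl, ?_⟩, rfl⟩
    have : (univ.filter fun v => 1 ≤ closedSum (crown m) (fun _ => (1 : ℤ)) v) = univ := by
      rw [Finset.filter_eq_self]
      intro v _
      unfold closedSum
      simp
    rw [this]
    simp
    omega
  · rintro w ⟨f, ⟨hf, hk⟩, rfl⟩
    by_contra hlt
    have := crown_cover hm f hf (by omega)
    omega

/-- For all `j ≥ 2` the crown graph on `4j` vertices is connected, the least weight of a signed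
`(2j+1)`-subdominating function exceeds `2(2j+1) - 4j = 2`, and `p_𝒢(4j) ≥ 2j + 2`. -/
theorem result : ∀ j : ℕ, 2 ≤ j →
    ((crown (2 * j)).Connected ∧ Fintype.card (Fin (2 * j) × Bool) = 4 * j ∧
      2 * ((2 * j + 1 : ℕ) : ℤ) - (4 * j : ℕ) < subdom (crown (2 * j)) (2 * j + 1)) ∧
    (4 * j) / 2 + 2 ≤ pG (4 * j) := by
  intro j hj
  have hconn : (crown (2 * j)).Connected := crown_connected (by omega)
  have hcard : Fintype.card (Fin (2 * j) × Bool) = 4 * j := by
    simp; ring
  have hsub : 2 * ((2 * j + 1 : ℕ) : ℤ) - (4 * j : ℕ) < subdom (crown (2 * j)) (2 * j + 1) := by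
    rcases crown_subdom (m := 2 * j) ⟨j, by ring⟩ with h | h
    · push_cast; omega
    · omega
  refine ⟨⟨hconn, hcard, hsub⟩, ?_⟩
  unfold pG
  apply le_csInf
  · refine ⟨4 * j + 1, ?_⟩
    intro V _ G _ _ _ k _ h1 h2
    omega
  · intro p hp
    by_contra hlt
    have := hp (Fin (2 * j) × Bool) (crown (2 * j)) hcard hconn (2 * j + 1) (by omega) (by omega)
      (by omega)
    omega

end Pool.Agent.Results.MP_1fc697_co.CrownGraphs
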